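import Mathlib
import Pool.Agent.Helper850.RC.P_mainA
import Pool.Agent.Helper850.RC.P_poly_kval
import Pool.Agent.Helper850.RC.P_tow_log

set_option autoImplicit false

/-!
# Homogeneous sets in semi-algebraic hypergraphs: polynomials of bounded degree

For every dimension `d` and every degree `D` there is a constant `C` such that for all `k` and all
polynomials `f` in `k` points of `ℝ^d` that have degree at most `D` in every variable, every
sequence of `n` points has a homogeneous subset of size at least `c * log^{(C)} n`, where `C` does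
not depend on `k`.
-/

namespace Pool.Agent.Results.MP_7bd1f8_co.BoundedDegree

open Filter

/-- For `x 0 < x 1 < ... < x (k-1)`: the `k`-set `{v (x 0), ..., v (x (k-1))}` is an edge. -/
def Edge {d k n : ℕ} (f : MvPolynomial (Fin k × Fin d) ℝ) (v : Fin n → (Fin d → ℝ))
    (x : Fin k → Fin n) : Prop :=
  0 ≤ MvPolynomial.eval (fun z : Fin k × Fin d => v (x z.1) z.2) f

/-- `S` is a clique or an independent set of the hypergraph defined by `f` on the sequence `v`. -/
def IsHomogeneous {d k n : ℕ} (f : MvPolynomial (Fin k × Fin d) ℝ) (v : Fin n → (Fin d → ℝ))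
    (S : Finset (Fin n)) : Prop :=
  (∀ x : Fin k → Fin n, StrictMono x → (∀ l, x l ∈ S) → Edge f v x) ∨
  (∀ x : Fin k → Fin n, StrictMono x → (∀ l, x l ∈ S) → ¬ Edge f v x)

/-- The largest size of a clique or independent set, `max (α(H), ω(H))`. -/
noncomputable def homNumber {d k n : ℕ} (f : MvPolynomial (Fin k × Fin d) ℝ)
    (v : Fin n → (Fin d → ℝ)) : ℕ :=
  sSup {s | ∃ S : Finset (Fin n), S.card = s ∧ IsHomogeneous f v S}

/-- `r_f(n)`: the minimum of `max (α(H), ω(H))` over all sequences of `n` points of `ℝ^d`. -/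
noncomputable def r {d k : ℕ} (f : MvPolynomial (Fin k × Fin d) ℝ) (n : ℕ) : ℕ :=
  sInf {s | ∃ v : Fin n → (Fin d → ℝ), s = homNumber f v}

theorem exists_hom (d D : ℕ) : ∃ C : ℕ, ∀ (k : ℕ) (f : MvPolynomial (Fin k × Fin d) ℝ),
    (∀ z, f.degreeOf z ≤ D) → ∃ a : ℕ, ∀ (n N : ℕ), RC.tow C (a * (n + 1)) ≤ N →
      ∀ v : Fin N → (Fin d → ℝ), ∃ S : Finset (Fin N), S.card = n ∧ IsHomogeneous f v S := by
  obtain ⟨C, hC⟩ := RC.mainA ((D + 1) ^ d)
  refine ⟨C, fun k f hf => ?_⟩
  obtain ⟨a, ha⟩ := hC k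
  refine ⟨a, fun n N hN v => ?_⟩
  obtain ⟨mon, c, hmon⟩ := RC.poly_kval d D k f hf
  obtain ⟨T, hT, hTn, s, hs⟩ := ha n (Finset.range N)
    (fun j i => if h : i < N then mon j (v ⟨i, h⟩) else 0) c (by simpa using hN)
  classical
  have hTN : ∀ i ∈ T, i < N := fun i hi => Finset.mem_range.mp (hT hi)
  refine ⟨Finset.univ.filter (fun i : Fin N => (i : ℕ) ∈ T), ?_, ?_⟩
  · rw [← hTn]
    refine Finset.card_bij (fun i _ => (i : ℕ)) ?_ ?_ ?_
    · intro i hi
      exact (Finset.mem_filter.mp hi).2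
    · intro i _ j _ h
      exact Fin.ext h
    · intro i hi
      exact ⟨⟨i, hTN i hi⟩, by simp [hi], rfl⟩
  · have key : ∀ x : Fin k → Fin N, StrictMono x →
        (∀ l, x l ∈ Finset.univ.filter (fun i : Fin N => (i : ℕ) ∈ T)) →
        SignType.sign (MvPolynomial.eval (fun z : Fin k × Fin d => v (x z.1) z.2) f) = s := by
      intro x hx hxS
      have h1 := hs (fun l => (x l : ℕ)) (fun a b hab => hx hab)
        (fun l => (Finset.mem_filter.mp (hxS l)).2)
      rw [hmon (fun l => v (x l))]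
      rw [← h1]
      congr 1
      unfold RC.kval
      refine Finset.sum_congr rfl (fun J _ => ?_)
      congr 1
      refine Finset.prod_congr rfl (fun l _ => ?_)
      simp
    by_cases hsn : s = -1
    · right
      intro x hx hxS hE
      have h2 := key x hx hxS
      rw [hsn, sign_eq_neg_one_iff] at h2
      exact absurd hE (not_le.mpr h2)
    · left
      intro x hx hxS
      have h2 := key x hx hxS
      by_contra hE
      have h3 : MvPolynomial.eval (fun z : Fin k × Fin d => v (x z.1) z.2) f < 0 := not_le.mp hE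
      rw [sign_neg h3] at h2
      exact hsn h2.symm

/-- For every dimension `d` and every degree `D` there is a constant `C`, independent of the
uniformity `k`, such that `r_f(n) ≥ c log^{(C)} n` for all large `n` and every polynomial `f` in
`k` points of `ℝ^d` of degree at most `D` in each of its `d k` variables. -/
theorem result (d D : ℕ) : ∃ C : ℕ, ∀ (k : ℕ) (f : MvPolynomial (Fin k × Fin d) ℝ),
    (∀ z, f.degreeOf z ≤ D) → ∃ c : ℝ, 0 < c ∧ ∀ᶠ n : ℕ in atTop,
      c * (Real.log^[C]) (n : ℝ) ≤ (r f n : ℝ) := by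
  obtain ⟨C, hC⟩ := exists_hom d D
  refine ⟨C, fun k f hf => ?_⟩
  obtain ⟨a, ha⟩ := hC k f hf
  obtain ⟨c, hc, hev⟩ := RC.tow_log C a
  refine ⟨c, hc, ?_⟩
  filter_upwards [hev] with N hN
  obtain ⟨n, hn1, hn2⟩ := hN
  refine hn2.trans ?_
  have hne : {s | ∃ v : Fin N → (Fin d → ℝ), s = homNumber f v}.Nonempty :=
    ⟨_, fun _ _ => 0, rfl⟩
  obtain ⟨v, hv⟩ := Nat.sInf_mem hne
  have hr : r f N = homNumber f v := hv
  rw [hr]
  obtain ⟨S, hS, hSh⟩ := ha n N hn1 v
  have hbdd : BddAbove {s | ∃ S : Finset (Fin N), S.card = s ∧ IsHomogeneous f v S} := by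
    refine ⟨N, ?_⟩
    rintro s ⟨S, rfl, _⟩
    simpa using Finset.card_le_univ S
  exact_mod_cast le_csSup hbdd ⟨S, hS, hSh⟩

end Pool.Agent.Results.MP_7bd1f8_co.BoundedDegree
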