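import Mathlib
import Pool.Agent.Helper863.RPolyCore

namespace Pool.Agent.Results.MP_7bd1f8_co.FewMonomials

open Pool.Agent.Helper863.RPolyCore

/-- `s` (a set of indices of the point sequence `v`) is a clique of the `k`-uniform hypergraph
whose edges are the increasing `k`-tuples of points at which `f` is nonnegative -/
def IsClique {k d : ℕ} (f : MvPolynomial (Fin k × Fin d) ℝ) {n : ℕ} (v : Fin n → Fin d → ℝ)
    (s : Finset (Fin n)) : Prop :=
  ∀ t : Fin k → Fin n, StrictMono t → (∀ l, t l ∈ s) →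
    0 ≤ MvPolynomial.eval (fun p : Fin k × Fin d => v (t p.1) p.2) f

/-- `s` is an independent set of that hypergraph -/
def IsIndependent {k d : ℕ} (f : MvPolynomial (Fin k × Fin d) ℝ) {n : ℕ} (v : Fin n → Fin d → ℝ)
    (s : Finset (Fin n)) : Prop :=
  ∀ t : Fin k → Fin n, StrictMono t → (∀ l, t l ∈ s) →
    ¬ 0 ≤ MvPolynomial.eval (fun p : Fin k × Fin d => v (t p.1) p.2) f

/-- the clique number -/
noncomputable def omega {k d : ℕ} (f : MvPolynomial (Fin k × Fin d) ℝ) {n : ℕ}
    (v : Fin n → Fin d → ℝ) : ℕ := sSup {m | ∃ s : Finset (Fin n), IsClique f v s ∧ s.card = m}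

/-- the independence number -/
noncomputable def alpha {k d : ℕ} (f : MvPolynomial (Fin k × Fin d) ℝ) {n : ℕ}
    (v : Fin n → Fin d → ℝ) : ℕ := sSup {m | ∃ s : Finset (Fin n), IsIndependent f v s ∧ s.card = m}

/-- `r_f(n)`: the minimum of `max (α, ω)` over all sequences of `n` points of `ℝ^d` -/
noncomputable def rf {k d : ℕ} (f : MvPolynomial (Fin k × Fin d) ℝ) (n : ℕ) : ℕ :=
  sInf {m | ∃ v : Fin n → Fin d → ℝ, m = max (alpha f v) (omega f v)}

/-- the monomials of `f` in the coordinates of each single point have exponent vectors in `E` -/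
def BlockMonomials {k d : ℕ} (f : MvPolynomial (Fin k × Fin d) ℝ) (E : Finset (Fin d → ℕ)) : Prop :=
  ∀ s ∈ f.support, ∀ l : Fin k, (fun j => s (l, j)) ∈ E

lemma bdd_aux {n : ℕ} (P : Finset (Fin n) → Prop) :
    BddAbove {m | ∃ s : Finset (Fin n), P s ∧ s.card = m} := by
  refine ⟨n, ?_⟩
  rintro m ⟨s, -, rfl⟩
  simpa using Finset.card_le_univ s

/-- the tensor of a polynomial -/
noncomputable def tensor {k d : ℕ} (E : Finset (Fin d → ℕ)) (f : MvPolynomial (Fin k × Fin d) ℝ)
    (h : BlockMonomials f E) : MultilinearMap ℝ (fun _ : Fin k => E → ℝ) ℝ :=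
  ∑ s ∈ f.support.attach, f.coeff s.1 • (MultilinearMap.mkPiAlgebra ℝ (Fin k) ℝ).compLinearMap
    (fun l => LinearMap.proj (⟨fun j => s.1 (l, j), h s.1 s.2 l⟩ : E))

/-- the monomials of `E` at a point -/
def vero {d : ℕ} (E : Finset (Fin d → ℕ)) (x : Fin d → ℝ) : E → ℝ :=
  fun α => ∏ j, x j ^ (α.1 j)

lemma tensor_vero {k d : ℕ} (E : Finset (Fin d → ℕ)) (f : MvPolynomial (Fin k × Fin d) ℝ)
    (h : BlockMonomials f E) (x : Fin k → Fin d → ℝ) :
    tensor E f h (fun l => vero E (x l)) =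
      MvPolynomial.eval (fun p : Fin k × Fin d => x p.1 p.2) f := by
  rw [MvPolynomial.eval_eq', ← Finset.sum_attach]
  unfold tensor
  rw [sum_apply]
  apply Finset.sum_congr rfl
  intro s hs
  simp only [smul_apply, MultilinearMap.compLinearMap_apply,
    MultilinearMap.mkPiAlgebra_apply, LinearMap.proj_apply, smul_eq_mul]
  congr 1
  rw [Fintype.prod_prod_type]
  apply Finset.prod_congr rfl
  intro l _
  rfl

/-- towers against iterated logarithms -/
lemma tw_le_of_log (C : ℕ) : ∀ᶠ x : ℝ in Filter.atTop, ∀ y : ℕ, (y : ℝ) ≤ Real.log^[C] x →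
    (tw C y : ℝ) ≤ x := by
  induction C with
  | zero => exact Filter.Eventually.of_forall (fun x y h => h)
  | succ j ih =>
    have h1 := Real.tendsto_log_atTop.eventually ih
    filter_upwards [h1, Filter.eventually_gt_atTop 0] with x hx hx0 y hy
    rw [Function.iterate_succ_apply] at hy
    have h2 := hx y hy
    show (((2 ^ tw j y : ℕ)) : ℝ) ≤ x
    push_cast
    calc (2 : ℝ) ^ (tw j y) ≤ (Real.exp 1) ^ (tw j y) := by
          apply pow_le_pow_left₀ (by norm_num)
          have := Real.add_one_le_exp 1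
          linarith
      _ = Real.exp (tw j y) := by rw [← Real.exp_nat_mul, mul_one]
      _ ≤ Real.exp (Real.log x) := Real.exp_le_exp.2 h2
      _ = x := Real.exp_log hx0

lemma tendsto_iter (C : ℕ) : Filter.Tendsto (fun x : ℝ => Real.log^[C] x) Filter.atTop Filter.atTop := by
  induction C with
  | zero => exact Filter.tendsto_id
  | succ j ih =>
    simp only [Function.iterate_succ_apply]
    exact ih.comp Real.tendsto_log_atTop

theorem main (N k : ℕ) : ∃ c : ℝ, 0 < c ∧ ∃ n₀ : ℕ,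
    ∀ (d : ℕ) (f : MvPolynomial (Fin k × Fin d) ℝ) (E : Finset (Fin d → ℕ)),
      E.card ≤ N → BlockMonomials f E → ∀ n, n₀ ≤ n →
      c * Real.log^[6 * N + 16] n ≤ rf f n := by
  obtain ⟨A, hA, hA2⟩ := uniformity N k
  have hA0 : (0 : ℝ) < A := by exact_mod_cast hA
  have hev : ∀ᶠ n : ℕ in Filter.atTop, (∀ y : ℕ, (y : ℝ) ≤ Real.log^[6 * N + 16] n →
      (tw (6 * N + 16) y : ℝ) ≤ n) ∧ (2 * A : ℝ) ≤ Real.log^[6 * N + 16] n :=
    tendsto_natCast_atTop_atTop.eventually ((tw_le_of_log (6 * N + 16)).and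
      ((tendsto_iter (6 * N + 16)).eventually_ge_atTop _))
  obtain ⟨n₀, hn₀⟩ := Filter.eventually_atTop.1 hev
  refine ⟨1 / (2 * A), by positivity, n₀, ?_⟩
  intro d f E hE hf n hn
  obtain ⟨h1, h2⟩ := hn₀ n hn
  set L := Real.log^[6 * N + 16] (n : ℝ) with hL
  set m := ⌊L / A⌋₊ with hm
  have hLA : 2 ≤ L / A := by rw [le_div_iff₀ hA0]; exact h2
  have hm1 : 1 ≤ m := by
    rw [hm]; exact Nat.one_le_floor_iff _ |>.2 (by linarith)
  have hm2 : L / A < m + 1 := Nat.lt_floor_add_one _
  have hm3 : (m : ℝ) ≤ L / A := Nat.floor_le (by linarith)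
  have hAm : ((A * m : ℕ) : ℝ) ≤ L := by
    push_cast
    rw [le_div_iff₀ hA0] at hm3
    linarith
  have htw : tw (6 * N + 16) (A * m) ≤ n := by exact_mod_cast h1 _ hAm
  have hmain : m ≤ rf f n := by
    have hne : {m | ∃ v : Fin n → Fin d → ℝ, m = max (alpha f v) (omega f v)}.Nonempty :=
      ⟨_, (fun _ _ => 0), rfl⟩
    apply le_csInf hne
    rintro x ⟨v, rfl⟩
    let e : ℕ → (E → ℝ) := fun i => if h : i < n then vero E (v ⟨i, h⟩) else 0
    obtain ⟨T, hTS, hTm, hT⟩ := hA2 m hm1 (Finset.range n) (by simpa using htw)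
      (E → ℝ) (by simpa using hE) e (tensor E f hf)
    let s : Finset (Fin n) := T.attachFin (fun i hi => Finset.mem_range.1 (hTS hi))
    have hs : s.card = T.card := Finset.card_attachFin _ _
    have key : ∀ t : Fin k → Fin n, StrictMono t → (∀ l, t l ∈ s) →
        Inc k T (fun l => (t l : ℕ)) ∧ tensor E f hf (fun l => e (t l)) =
          MvPolynomial.eval (fun p : Fin k × Fin d => v (t p.1) p.2) f := by
      intro t ht hts
      refine ⟨⟨fun a b hab => ht hab, fun l => ?_⟩, ?_⟩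
      · exact (Finset.mem_attachFin _).1 (hts l)
      · rw [← tensor_vero E f hf (fun l => v (t l))]
        congr 1
        funext l
        simp only [e, dif_pos (t l).2]
    rcases hT with hT | hT
    · apply le_max_of_le_right
      apply le_trans hTm
      rw [← hs]
      apply le_csSup (bdd_aux _)
      refine ⟨s, ?_, rfl⟩
      intro t ht hts
      rw [← (key t ht hts).2]
      exact hT _ (key t ht hts).1
    · apply le_max_of_le_left
      apply le_trans hTm
      rw [← hs]
      apply le_csSup (bdd_aux _)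
      refine ⟨s, ?_, rfl⟩
      intro t ht hts
      rw [← (key t ht hts).2, not_le]
      exact hT _ (key t ht hts).1
  have h5 : (m : ℝ) ≤ rf f n := by exact_mod_cast hmain
  refine le_trans ?_ h5
  have h6 : 1 / (2 * (A : ℝ)) * L = (L / A) / 2 := by field_simp
  rw [h6]
  linarith

/-- For points in `ℝ^d` (in particular `d = 2`) and polynomials in which each single point enters
through at most `N` monomials, `6 N + 16` iterated logarithms suffice for every uniformity `k`;
in particular `6 (D+1)^d + 16` logarithms suffice for degree at most `D` in every variable. -/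
theorem result :
    (∀ N k : ℕ, ∃ c : ℝ, 0 < c ∧ ∃ n₀ : ℕ,
      ∀ (d : ℕ) (f : MvPolynomial (Fin k × Fin d) ℝ) (E : Finset (Fin d → ℕ)),
        E.card ≤ N → BlockMonomials f E → ∀ n, n₀ ≤ n →
        c * Real.log^[6 * N + 16] n ≤ rf f n) ∧
    (∀ d D k : ℕ, ∃ c : ℝ, 0 < c ∧ ∃ n₀ : ℕ,
      ∀ f : MvPolynomial (Fin k × Fin d) ℝ, (∀ p, f.degreeOf p ≤ D) → ∀ n, n₀ ≤ n →
        c * Real.log^[6 * (D + 1) ^ d + 16] n ≤ rf f n) := by
  refine ⟨main, ?_⟩
  intro d D k
  obtain ⟨c, hc, n₀, h⟩ := main ((D + 1) ^ d) k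
  refine ⟨c, hc, n₀, ?_⟩
  intro f hf n hn
  refine h d f (Fintype.piFinset (fun _ => Finset.range (D + 1))) ?_ ?_ n hn
  · simp
  · intro s hs l
    rw [Fintype.mem_piFinset]
    intro j
    rw [Finset.mem_range]
    exact Nat.lt_succ_of_le (le_trans (MvPolynomial.monomial_le_degreeOf (l, j) hs) (hf (l, j)))

end Pool.Agent.Results.MP_7bd1f8_co.FewMonomials
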